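import Mathlib

/-!
# The order of the minimax regret for inelastic caching on bipartite networks

For every right `d`-regular bipartite graph, with `D i` the number of caches adjacent to user `i`,
`(1 / (8 d ^ 2)) * √(C T) * ∑ i, √(D i) ≤ R*_T ≤ √(C T) * ∑ i, √(D i)`
for `N ≥ 2 C |J|` and `T ≥ C |J|` (the upper bound holds for all `N` and `T`).
-/

open Finset

set_option linter.unusedSectionVars false

namespace Pool.Agent.Results.MP_887eca_lc.RegretOrder

/-- The set of configurations: every cache `j` stores fractions `y j f ∈ [0, 1]` of the files, of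
total at most `C`. -/
def Conf (J : Type) (N C : ℕ) : Set (J → Fin N → ℝ) :=
  {y | (∀ j f, 0 ≤ y j f ∧ y j f ≤ 1) ∧ ∀ j, ∑ f, y j f ≤ C}

/-- An online policy: it chooses the configuration of a slot as a function of the requests of the
earlier slots. -/
abbrev Policy (I J : Type) (N C : ℕ) : Type :=
  (t : ℕ) → (Fin t → I → Fin N) → Conf J N C

/-- The requests before slot `t`. -/
def past {I : Type} {N T : ℕ} (x : Fin T → I → Fin N) (t : Fin T) : Fin t → I → Fin N :=
  fun s => x ⟨s, s.2.trans t.2⟩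

section defs

variable {I J : Type} [Fintype I] {N : ℕ}

/-- The inelastic reward of a slot in which user `i` requests file `x i` and the configuration is
`y`; `nb i` is the set of the caches adjacent to user `i`. -/
noncomputable def q (nb : I → Finset J) (x : I → Fin N) (y : J → Fin N → ℝ) : ℝ :=
  ∑ i, min 1 (∑ j ∈ nb i, y j (x i))

/-- The regret of a policy. -/
noncomputable def regret (nb : I → Finset J) (N C T : ℕ) (π : Policy I J N C) : ℝ :=
  ⨆ x : Fin T → I → Fin N, ((⨆ y : Conf J N C, ∑ t, q nb (x t) y) -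
    ∑ t, q nb (x t) (π t (past x t)))

/-- The minimax regret. -/
noncomputable def minimax (nb : I → Finset J) (N C T : ℕ) : ℝ :=
  ⨅ π : Policy I J N C, regret nb N C T π

end defs

/-! ### Averages over random requests -/

section avg

variable {I : Type} [Fintype I] [DecidableEq I] {N T : ℕ}

/-- all request sequences in which user `i` requests files in `A i` -/
def Om (T : ℕ) (A : I → Finset (Fin N)) : Finset (Fin T → I → Fin N) :=
  Finset.univ.filter (fun x => ∀ t i, x t i ∈ A i)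

/-- change one request -/
def upd (x : Fin T → I → Fin N) (t : Fin T) (i : I) (a : Fin N) : Fin T → I → Fin N :=
  fun t' i' => if t' = t ∧ i' = i then a else x t' i'

lemma upd_same (x : Fin T → I → Fin N) (t : Fin T) (i : I) (a : Fin N) : upd x t i a t i = a := by
  simp [upd]

lemma upd_ne_user (x : Fin T → I → Fin N) (t : Fin T) {i i' : I} (h : i' ≠ i) (a : Fin N)
    (t' : Fin T) : upd x t i a t' i' = x t' i' := by
  simp [upd, h]

lemma upd_ne_time (x : Fin T → I → Fin N) {t t' : Fin T} (h : t' ≠ t) (i i' : I) (a : Fin N) :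
    upd x t i a t' i' = x t' i' := by
  simp [upd, h]

lemma upd_upd (x : Fin T → I → Fin N) (t : Fin T) (i : I) (a : Fin N) :
    upd (upd x t i a) t i (x t i) = x := by
  funext t' i'
  unfold upd
  split_ifs with h
  · rw [h.1, h.2]
  · rfl

lemma upd_mem {A : I → Finset (Fin N)} {x : Fin T → I → Fin N} (hx : x ∈ Om T A) (t : Fin T)
    (i : I) {a : Fin N} (ha : a ∈ A i) : upd x t i a ∈ Om T A := by
  unfold Om at *
  rw [Finset.mem_filter] at *
  refine ⟨Finset.mem_univ _, fun t' i' => ?_⟩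
  unfold upd
  split_ifs with h
  · rw [h.2]; exact ha
  · exact hx.2 t' i'

lemma resample (A : I → Finset (Fin N)) (t : Fin T) (i : I) (G : (Fin T → I → Fin N) → ℝ) :
    ∑ x ∈ Om T A, ∑ a ∈ A i, G (upd x t i a) = (A i).card * ∑ x ∈ Om T A, G x := by
  rw [← Finset.sum_product']
  have h : ∑ p ∈ Om T A ×ˢ A i, G (upd p.1 t i p.2) = ∑ p ∈ Om T A ×ˢ A i, G p.1 := by
    apply Finset.sum_nbij' (fun p => (upd p.1 t i p.2, p.1 t i))
      (fun p => (upd p.1 t i p.2, p.1 t i))
    · rintro ⟨x, a⟩ hp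
      rw [Finset.mem_product] at hp ⊢
      refine ⟨upd_mem hp.1 t i hp.2, ?_⟩
      have := hp.1
      unfold Om at this
      rw [Finset.mem_filter] at this
      exact this.2 t i
    · rintro ⟨x, a⟩ hp
      rw [Finset.mem_product] at hp ⊢
      refine ⟨upd_mem hp.1 t i hp.2, ?_⟩
      have := hp.1
      unfold Om at this
      rw [Finset.mem_filter] at this
      exact this.2 t i
    · rintro ⟨x, a⟩ _
      simp only [upd_upd, upd_same]
    · rintro ⟨x, a⟩ _
      simp only [upd_upd, upd_same]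
    · rintro ⟨x, a⟩ _
      rfl
  rw [h, Finset.sum_product]
  simp only [Finset.sum_const, nsmul_eq_mul]
  rw [Finset.mul_sum]

lemma resample' (A : I → Finset (Fin N)) (t : Fin T) (i : I) (hA : (A i).Nonempty)
    (F : (Fin T → I → Fin N) → Fin N → ℝ) (hF : ∀ x a b, F (upd x t i a) b = F x b) :
    ∑ x ∈ Om T A, F x (x t i) = (∑ x ∈ Om T A, ∑ a ∈ A i, F x a) / (A i).card := by
  have hc : (0 : ℝ) < (A i).card := by exact_mod_cast hA.card_pos
  have h := resample A t i (fun x => F x (x t i))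
  rw [eq_div_iff hc.ne', mul_comm, ← h]
  apply Finset.sum_congr rfl
  intro x _
  apply Finset.sum_congr rfl
  intro a _
  rw [upd_same, hF]

lemma res (A : I → Finset (Fin N)) (t : Fin T) (i : I) (hA : (A i).Nonempty)
    (H : (Fin T → I → Fin N) → ℝ) (hH : ∀ x a, H (upd x t i a) = H x) (φ : Fin N → ℝ) :
    ∑ x ∈ Om T A, H x * φ (x t i) = (∑ x ∈ Om T A, H x) * ((∑ a ∈ A i, φ a) / (A i).card) := by
  rw [resample' A t i hA (fun x a => H x * φ a) (fun x a b => by simp only [hH])]
  simp only [← Finset.mul_sum]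
  rw [← Finset.sum_mul]
  ring

lemma Om_card_pos (T : ℕ) {A : I → Finset (Fin N)} (hA : ∀ i, (A i).Nonempty) :
    0 < (Om T A).card := by
  rw [Finset.card_pos]
  refine ⟨fun _ i => (hA i).choose, ?_⟩
  unfold Om
  rw [Finset.mem_filter]
  exact ⟨Finset.mem_univ _, fun _ i => (hA i).choose_spec⟩

/-- the difference of the numbers of requests for `f1` and `f0` by user `i` in the first `k` slots -/
noncomputable def Z (i : I) (f1 f0 : Fin N) (k : ℕ) (x : Fin T → I → Fin N) : ℝ :=
  ∑ t : Fin T, if (t : ℕ) < k then ((if x t i = f1 then 1 else 0) - (if x t i = f0 then 1 else 0))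
    else 0

lemma Z_succ (i : I) (f1 f0 : Fin N) {k : ℕ} (hk : k < T) (x : Fin T → I → Fin N) :
    Z i f1 f0 (k + 1) x = Z i f1 f0 k x +
      ((if x ⟨k, hk⟩ i = f1 then 1 else 0) - (if x ⟨k, hk⟩ i = f0 then 1 else 0)) := by
  unfold Z
  have h : ∀ t : Fin T, (if (t : ℕ) < k + 1 then
      ((if x t i = f1 then (1 : ℝ) else 0) - (if x t i = f0 then 1 else 0)) else 0) =
      (if (t : ℕ) < k then ((if x t i = f1 then 1 else 0) - (if x t i = f0 then 1 else 0)) else 0) +
      (if t = ⟨k, hk⟩ then ((if x t i = f1 then 1 else 0) - (if x t i = f0 then 1 else 0)) else 0) := by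
    intro t
    by_cases h1 : (t : ℕ) < k
    · have h2 : t ≠ ⟨k, hk⟩ := by
        intro h; rw [h] at h1; simp at h1
      rw [if_pos h1, if_pos (by omega), if_neg h2, add_zero]
    · by_cases h2 : t = ⟨k, hk⟩
      · subst h2
        simp
      · have h3 : (t : ℕ) ≠ k := by
          intro h; apply h2; exact Fin.ext h
        rw [if_neg h1, if_neg (by omega), if_neg h2, add_zero]
  rw [Finset.sum_congr rfl (fun t _ => h t), Finset.sum_add_distrib, Finset.sum_ite_eq',
    if_pos (Finset.mem_univ _)]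

lemma Z_upd (i : I) (f1 f0 : Fin N) {k : ℕ} (hk : k < T) (x : Fin T → I → Fin N) (a : Fin N) :
    Z i f1 f0 k (upd x ⟨k, hk⟩ i a) = Z i f1 f0 k x := by
  unfold Z
  apply Finset.sum_congr rfl
  intro t _
  by_cases h1 : (t : ℕ) < k
  · have h2 : t ≠ ⟨k, hk⟩ := by
      intro h; rw [h] at h1; simp at h1
    rw [if_pos h1, if_pos h1, upd_ne_time x h2]
  · rw [if_neg h1, if_neg h1]

lemma zeta_pow (f1 f0 a : Fin N) (h : f1 ≠ f0) :
    (((if a = f1 then (1 : ℝ) else 0) - (if a = f0 then 1 else 0)) ^ 2 =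
      (if a = f1 then 1 else 0) + (if a = f0 then 1 else 0)) ∧
    (((if a = f1 then (1 : ℝ) else 0) - (if a = f0 then 1 else 0)) ^ 3 =
      (if a = f1 then 1 else 0) - (if a = f0 then 1 else 0)) := by
  by_cases h1 : a = f1
  · have h2 : a ≠ f0 := by rw [h1]; exact h
    simp [h1, h]
  · by_cases h2 : a = f0
    · subst h2; simp [h1]
      norm_num
    · simp [h1, h2]

lemma moments (A : I → Finset (Fin N)) (i : I) {f1 f0 : Fin N} (h1 : f1 ∈ A i) (h0 : f0 ∈ A i)
    (hne : f1 ≠ f0) (k : ℕ) (hk : k ≤ T) :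
    ∑ x ∈ Om T A, (Z i f1 f0 k x) ^ 2 = (Om T A).card * (k * (2 / (A i).card)) ∧
    ∑ x ∈ Om T A, (Z i f1 f0 k x) ^ 4 = (Om T A).card * (k * (2 / (A i).card) +
      3 * k * (k - 1) * (2 / (A i).card) ^ 2) := by
  have hA : (A i).Nonempty := ⟨_, h1⟩
  have hc : (0 : ℝ) < (A i).card := by exact_mod_cast hA.card_pos
  induction k with
  | zero =>
    constructor <;> simp [Z]
  | succ k ih =>
    obtain ⟨ih2, ih4⟩ := ih (by omega)
    have hk' : k < T := by omega
    set ζ : Fin N → ℝ := fun a => (if a = f1 then (1 : ℝ) else 0) - (if a = f0 then 1 else 0) with hζ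
    have s1 : ∑ a ∈ A i, ζ a = 0 := by
      simp only [hζ]
      rw [Finset.sum_sub_distrib, Finset.sum_ite_eq', Finset.sum_ite_eq', if_pos h1, if_pos h0,
        sub_self]
    have s2 : ∑ a ∈ A i, ζ a ^ 2 = 2 := by
      simp only [hζ, (zeta_pow f1 f0 _ hne).1]
      rw [Finset.sum_add_distrib, Finset.sum_ite_eq', Finset.sum_ite_eq', if_pos h1, if_pos h0]
      norm_num
    have s3 : ∑ a ∈ A i, ζ a ^ 3 = 0 := by
      simp only [hζ, (zeta_pow f1 f0 _ hne).2]
      rw [Finset.sum_sub_distrib, Finset.sum_ite_eq', Finset.sum_ite_eq', if_pos h1, if_pos h0,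
        sub_self]
    have s4 : ∑ a ∈ A i, ζ a ^ 4 = 2 := by
      rw [← s2]
      apply Finset.sum_congr rfl
      intro a _
      simp only [hζ]
      have e := (zeta_pow f1 f0 a hne).2
      have e2 := (zeta_pow f1 f0 a hne).1
      calc _ = ((if a = f1 then (1 : ℝ) else 0) - (if a = f0 then 1 else 0)) ^ 3 *
            ((if a = f1 then (1 : ℝ) else 0) - (if a = f0 then 1 else 0)) := by ring
        _ = _ := by rw [e]; ring
    have r1 := fun (H : (Fin T → I → Fin N) → ℝ)
      (hH : ∀ x a, H (upd x ⟨k, hk'⟩ i a) = H x) (φ : Fin N → ℝ) => res A ⟨k, hk'⟩ i hA H hH φ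
    have hZ : ∀ (n : ℕ) (x : Fin T → I → Fin N) (a : Fin N),
        (fun x => (Z i f1 f0 k x) ^ n) (upd x ⟨k, hk'⟩ i a) =
        (fun x => (Z i f1 f0 k x) ^ n) x := by
      intro n x a
      simp only [Z_upd]
    have hs : ∀ x : Fin T → I → Fin N, Z i f1 f0 (k + 1) x = Z i f1 f0 k x + ζ (x ⟨k, hk'⟩ i) :=
      fun x => Z_succ i f1 f0 hk' x
    constructor
    · calc ∑ x ∈ Om T A, (Z i f1 f0 (k + 1) x) ^ 2
          = ∑ x ∈ Om T A, ((Z i f1 f0 k x) ^ 2 + 2 * ((Z i f1 f0 k x) ^ 1 * ζ (x ⟨k, hk'⟩ i)) +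
            (Z i f1 f0 k x) ^ 0 * (ζ (x ⟨k, hk'⟩ i)) ^ 2) := by
            apply Finset.sum_congr rfl; intro x _; rw [hs]; ring
        _ = _ := by
            rw [Finset.sum_add_distrib, Finset.sum_add_distrib, ← Finset.mul_sum,
              r1 _ (hZ 1) ζ, r1 _ (hZ 0) (fun a => ζ a ^ 2), s1, s2, ih2]
            simp only [pow_zero, Finset.sum_const, nsmul_eq_mul]
            push_cast
            ring
    · calc ∑ x ∈ Om T A, (Z i f1 f0 (k + 1) x) ^ 4
          = ∑ x ∈ Om T A, ((Z i f1 f0 k x) ^ 4 + 4 * ((Z i f1 f0 k x) ^ 3 * ζ (x ⟨k, hk'⟩ i)) +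
            6 * ((Z i f1 f0 k x) ^ 2 * (ζ (x ⟨k, hk'⟩ i)) ^ 2) +
            4 * ((Z i f1 f0 k x) ^ 1 * (ζ (x ⟨k, hk'⟩ i)) ^ 3) +
            (Z i f1 f0 k x) ^ 0 * (ζ (x ⟨k, hk'⟩ i)) ^ 4) := by
            apply Finset.sum_congr rfl; intro x _; rw [hs]; ring
        _ = _ := by
            rw [Finset.sum_add_distrib, Finset.sum_add_distrib, Finset.sum_add_distrib,
              Finset.sum_add_distrib, ← Finset.mul_sum, ← Finset.mul_sum, ← Finset.mul_sum,
              r1 _ (hZ 3) ζ, r1 _ (hZ 2) (fun a => ζ a ^ 2), r1 _ (hZ 1) (fun a => ζ a ^ 3),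
              r1 _ (hZ 0) (fun a => ζ a ^ 4), s1, s2, s3, s4, ih2, ih4]
            simp only [pow_zero, Finset.sum_const, nsmul_eq_mul]
            push_cast
            ring

/-- `|z| ≥ (3/4) z ^ 2 / s - (1/16) z ^ 4 / s ^ 3` -/
lemma abs_ge {s : ℝ} (hs : 0 < s) (z : ℝ) :
    3 / 4 * (z ^ 2 / s) - 1 / 16 * (z ^ 4 / s ^ 3) ≤ |z| := by
  have h : ∀ u : ℝ, 0 ≤ u → 3 / 4 * (u ^ 2 / s) - 1 / 16 * (u ^ 4 / s ^ 3) ≤ u := by
    intro u hu
    have h1 : 0 ≤ u * (u - 2 * s) ^ 2 * (u + 4 * s) / (16 * s ^ 3) := by positivity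
    have h2 : u - (3 / 4 * (u ^ 2 / s) - 1 / 16 * (u ^ 4 / s ^ 3)) =
        u * (u - 2 * s) ^ 2 * (u + 4 * s) / (16 * s ^ 3) := by
      field_simp
      ring
    linarith
  have := h |z| (abs_nonneg z)
  have e4 : |z| ^ 4 = z ^ 4 := by
    rw [show (4 : ℕ) = 2 * 2 by norm_num, pow_mul, sq_abs, ← pow_mul]
  rw [sq_abs, e4] at this
  exact this

lemma abs_mean (A : I → Finset (Fin N)) (i : I) {f1 f0 : Fin N} (h1 : f1 ∈ A i) (h0 : f0 ∈ A i)
    (hne : f1 ≠ f0) (hT : ((A i).card : ℝ) ≤ 2 * T) :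
    (Om T A).card * (1 / 2 * Real.sqrt (T * (2 / (A i).card))) ≤
      ∑ x ∈ Om T A, |Z i f1 f0 T x| := by
  have hA : (A i).Nonempty := ⟨_, h1⟩
  have hc : (0 : ℝ) < (A i).card := by exact_mod_cast hA.card_pos
  obtain ⟨m2, m4⟩ := moments A i h1 h0 hne T le_rfl
  set p : ℝ := T * (2 / (A i).card) with hp
  have hp1 : 1 ≤ p := by
    rw [hp, mul_div_assoc', le_div_iff₀ hc]; linarith
  set s : ℝ := Real.sqrt p with hs
  have hs0 : 0 < s := Real.sqrt_pos.2 (by linarith)
  have hs2 : s ^ 2 = p := Real.sq_sqrt (by linarith)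
  have h4 : (T : ℝ) * (2 / (A i).card) + 3 * T * (T - 1) * (2 / (A i).card) ^ 2 ≤ 4 * p ^ 2 := by
    have e : 3 * (T : ℝ) * (T - 1) * (2 / (A i).card) ^ 2 =
        3 * p ^ 2 - 3 * p * (2 / (A i).card) := by rw [hp]; ring
    rw [e, ← hp]
    have : 0 ≤ 3 * p * (2 / ((A i).card : ℝ)) := by positivity
    nlinarith
  have hn : (0 : ℝ) ≤ (Om T A).card := Nat.cast_nonneg _
  calc ((Om T A).card : ℝ) * (1 / 2 * s)
      = 3 / 4 * ((Om T A).card * p / s) - 1 / 16 * ((Om T A).card * (4 * p ^ 2) / s ^ 3) := by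
        rw [← hs2]; field_simp; ring
    _ ≤ 3 / 4 * ((∑ x ∈ Om T A, (Z i f1 f0 T x) ^ 2) / s) -
          1 / 16 * ((∑ x ∈ Om T A, (Z i f1 f0 T x) ^ 4) / s ^ 3) := by
        rw [m2, m4]
        have : ((Om T A).card : ℝ) * (T * (2 / (A i).card) + 3 * T * (T - 1) *
            (2 / (A i).card) ^ 2) / s ^ 3 ≤ (Om T A).card * (4 * p ^ 2) / s ^ 3 :=
          div_le_div_of_nonneg_right (mul_le_mul_of_nonneg_left h4 hn) (by positivity)
        linarith
    _ = ∑ x ∈ Om T A, (3 / 4 * ((Z i f1 f0 T x) ^ 2 / s) -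
          1 / 16 * ((Z i f1 f0 T x) ^ 4 / s ^ 3)) := by
        rw [Finset.sum_sub_distrib, ← Finset.mul_sum, ← Finset.mul_sum, Finset.sum_div,
          Finset.sum_div]
    _ ≤ _ := Finset.sum_le_sum fun x _ => abs_ge hs0 _

end avg

/-! ### The lower bound -/

lemma sum_ind_le_one {ι α : Type*} [DecidableEq α] (s : Finset ι) (h : ι → α)
    (hinj : Set.InjOn h s) (f : α) : ∑ c ∈ s, (if f = h c then (1 : ℝ) else 0) ≤ 1 := by
  classical
  rw [Finset.sum_boole]
  have : (s.filter (fun c => f = h c)).card ≤ 1 := by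
    rw [Finset.card_le_one]
    intro a ha b hb
    rw [Finset.mem_filter] at ha hb
    exact hinj ha.1 hb.1 (ha.2.symm.trans hb.2)
  exact_mod_cast this

section lower

variable {I J : Type} [Fintype I] [Fintype J] [DecidableEq I] [DecidableEq J] {N C : ℕ}

/-- The data of the lower bound construction. -/
structure Data (nb : I → Finset J) (N C : ℕ) where
  /-- chosen users -/
  S : Finset I
  /-- blocks of files -/
  e : J × Fin C × Bool ↪ Fin N
  /-- private blocks of the chosen users -/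
  κ : I → J → J
  hκ : ∀ i ∈ S, ∀ j ∈ nb i, ∀ i' ∈ S, ∀ j' ∈ nb i', κ i j = κ i' j' → i = i' ∧ j = j'
  /-- assigned caches -/
  Jas : Finset J
  hJas : ∀ j, j ∈ Jas ↔ ∃ i ∈ S, j ∈ nb i
  /-- assignment -/
  g : J → I
  hg : ∀ j ∈ Jas, g j ∈ S ∧ j ∈ nb (g j) ∧ ∀ i ∈ S, j ∈ nb i → (nb (g j)).card ≤ (nb i).card
  /-- block of a cache -/
  β : J → J
  hβ : Function.Injective β
  hβ' : ∀ j ∈ Jas, β j = κ (g j) j
  hpos : ∀ i ∈ S, 0 < (nb i).card
  hC : 0 < C
  hN : 0 < N

variable {nb : I → Finset J} (D : Data nb N C)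

/-- request sets -/
def Data.A (i : I) : Finset (Fin N) :=
  if i ∈ D.S then (nb i ×ˢ (Finset.univ : Finset (Fin C × Bool))).image
    (fun p => D.e (D.κ i p.1, p.2)) else Finset.univ

lemma Data.A_card (i : I) (hi : i ∈ D.S) : (D.A i).card = 2 * C * (nb i).card := by
  unfold Data.A
  rw [if_pos hi, Finset.card_image_of_injOn]
  · rw [Finset.card_product, Finset.card_univ, Fintype.card_prod, Fintype.card_fin,
      Fintype.card_bool]
    ring
  · rintro ⟨j, c⟩ h1 ⟨j', c'⟩ h2 h
    simp only [Finset.coe_product, Set.mem_prod, Finset.mem_coe] at h1 h2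
    have := D.e.injective h
    rw [Prod.mk.injEq] at this
    obtain ⟨-, h3⟩ := D.hκ i hi j h1.1 i hi j' h2.1 this.1
    have h4 : c = c' := this.2
    rw [h3, h4]

lemma Data.A_card' (i : I) (hi : i ∉ D.S) : (D.A i).card = N := by
  unfold Data.A
  rw [if_neg hi, Finset.card_univ, Fintype.card_fin]

lemma Data.A_nonempty (i : I) : (D.A i).Nonempty := by
  rw [← Finset.card_pos]
  by_cases hi : i ∈ D.S
  · rw [D.A_card i hi]
    exact Nat.mul_pos (Nat.mul_pos (by norm_num) D.hC) (D.hpos i hi)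
  · rw [D.A_card' i hi]; exact D.hN

lemma Data.A_disj (i i' : I) (hi : i ∈ D.S) (hi' : i' ∈ D.S) (h : i ≠ i') :
    Disjoint (D.A i) (D.A i') := by
  rw [Finset.disjoint_left]
  intro a ha ha'
  unfold Data.A at ha ha'
  rw [if_pos hi, Finset.mem_image] at ha
  rw [if_pos hi', Finset.mem_image] at ha'
  obtain ⟨⟨j, c⟩, h1, h2⟩ := ha
  obtain ⟨⟨j', c'⟩, h3, h4⟩ := ha'
  rw [Finset.mem_product] at h1 h3
  have := D.e.injective (h2.trans h4.symm)
  rw [Prod.mk.injEq] at this
  exact h (D.hκ i hi j h1.1 i' hi' j' h3.1 this.1).1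

lemma Data.mem_A (j : J) (hj : j ∈ D.Jas) (c : Fin C) (b : Bool) :
    D.e (D.β j, c, b) ∈ D.A (D.g j) := by
  obtain ⟨h1, h2, -⟩ := D.hg j hj
  unfold Data.A
  rw [if_pos h1, Finset.mem_image]
  exact ⟨(j, c, b), Finset.mem_product.2 ⟨h2, Finset.mem_univ _⟩, by rw [D.hβ' j hj]⟩

variable {T : ℕ}

/-- the number of requests of user `i` for the file `f` -/
noncomputable def cnt (x : Fin T → I → Fin N) (i : I) (f : Fin N) : ℝ :=
  ∑ t, if x t i = f then 1 else 0

/-- which file of the pair is stored -/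
noncomputable def Data.bs (x : Fin T → I → Fin N) (j : J) (c : Fin C) : Bool :=
  open Classical in
  if j ∈ D.Jas then decide (cnt x (D.g j) (D.e (D.β j, c, false)) ≤
    cnt x (D.g j) (D.e (D.β j, c, true))) else true

/-- the file stored -/
noncomputable def Data.fl (x : Fin T → I → Fin N) (j : J) (c : Fin C) : Fin N :=
  D.e (D.β j, c, D.bs x j c)

/-- the configuration in hindsight -/
noncomputable def Data.yst (x : Fin T → I → Fin N) (j : J) (f : Fin N) : ℝ :=
  ∑ c, if f = D.fl x j c then 1 else 0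

lemma Data.fl_inj (x : Fin T → I → Fin N) (s : Set (J × Fin C)) :
    Set.InjOn (fun p : J × Fin C => D.fl x p.1 p.2) s := by
  rintro ⟨j, c⟩ _ ⟨j', c'⟩ _ h
  have := D.e.injective h
  simp only [Prod.mk.injEq] at this
  rw [D.hβ this.1, this.2.1]

lemma Data.yst_mem (x : Fin T → I → Fin N) : D.yst x ∈ Conf J N C := by
  refine ⟨fun j f => ⟨?_, ?_⟩, fun j => ?_⟩
  · unfold Data.yst
    apply Finset.sum_nonneg; intro c _; split_ifs <;> norm_num
  · unfold Data.yst
    apply sum_ind_le_one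
    intro c _ c' _ h
    have := D.fl_inj x Set.univ (Set.mem_univ (j, c)) (Set.mem_univ (j, c')) h
    rw [Prod.mk.injEq] at this
    exact this.2
  · unfold Data.yst
    rw [Finset.sum_comm]
    simp

lemma Data.yst_sum (x : Fin T → I → Fin N) (i : I) (f : Fin N) :
    min 1 (∑ j ∈ nb i, D.yst x j f) = ∑ j ∈ nb i, ∑ c, if f = D.fl x j c then (1 : ℝ) else 0 := by
  rw [min_eq_right]
  · rfl
  · unfold Data.yst
    rw [← Finset.sum_product']
    exact sum_ind_le_one (nb i ×ˢ Finset.univ) (fun p => D.fl x p.1 p.2) (D.fl_inj x _) f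

lemma Data.q_yst (x : Fin T → I → Fin N) (t : Fin T) :
    (∑ j ∈ D.Jas, ∑ c, if x t (D.g j) = D.fl x j c then (1 : ℝ) else 0) +
      (∑ i ∈ D.Sᶜ, ∑ j ∈ nb i, ∑ c, if x t i = D.fl x j c then (1 : ℝ) else 0) ≤
      q nb (x t) (D.yst x) := by
  unfold q
  rw [Finset.sum_congr rfl (fun i _ => D.yst_sum x i (x t i)),
    ← Finset.sum_add_sum_compl D.S]
  apply add_le_add_left
  have h1 : ∑ i ∈ D.S, ∑ j ∈ nb i, ∑ c, (if x t i = D.fl x j c then (1 : ℝ) else 0) =
      ∑ j, ∑ i ∈ D.S.filter (fun i => j ∈ nb i),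
        ∑ c, (if x t i = D.fl x j c then (1 : ℝ) else 0) := by
    rw [Finset.sum_comm' (t' := Finset.univ) (s' := fun j => D.S.filter (fun i => j ∈ nb i))]
    intro i j
    simp only [Finset.mem_filter, Finset.mem_univ, and_true]
  rw [h1]
  have hnn : ∀ (i : I) (j : J), 0 ≤ ∑ c, (if x t i = D.fl x j c then (1 : ℝ) else 0) := by
    intro i j
    apply Finset.sum_nonneg; intro c _; split_ifs <;> norm_num
  calc (∑ j ∈ D.Jas, ∑ c, if x t (D.g j) = D.fl x j c then (1 : ℝ) else 0)
      ≤ ∑ j ∈ D.Jas, ∑ i ∈ D.S.filter (fun i => j ∈ nb i),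
        ∑ c, (if x t i = D.fl x j c then (1 : ℝ) else 0) := by
        apply Finset.sum_le_sum
        intro j hj
        obtain ⟨g1, g2, -⟩ := D.hg j hj
        exact Finset.single_le_sum
          (f := fun i => ∑ c, (if x t i = D.fl x j c then (1 : ℝ) else 0))
          (fun i _ => hnn i j) (Finset.mem_filter.2 ⟨g1, g2⟩)
    _ ≤ _ := Finset.sum_le_sum_of_subset_of_nonneg (Finset.subset_univ _)
        (fun j _ _ => Finset.sum_nonneg fun i _ => hnn i j)

lemma Data.fl_upd (x : Fin T → I → Fin N) (t : Fin T) (i : I) (hi : i ∉ D.S) (a : Fin N) (j : J)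
    (c : Fin C) : D.fl (upd x t i a) j c = D.fl x j c := by
  unfold Data.fl Data.bs
  by_cases hj : j ∈ D.Jas
  · have hne : D.g j ≠ i := by
      intro h; exact hi (h ▸ (D.hg j hj).1)
    have : ∀ f, cnt (upd x t i a) (D.g j) f = cnt x (D.g j) f := by
      intro f
      unfold cnt
      apply Finset.sum_congr rfl
      intro t' _
      rw [upd_ne_user x t hne]
    simp only [this]
  · simp only [hj, if_false]

lemma Data.other (t : Fin T) (i : I) (hi : i ∉ D.S) (j : J) (c : Fin C) :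
    ∑ x ∈ Om T D.A, (if x t i = D.fl x j c then (1 : ℝ) else 0) = (Om T D.A).card / N := by
  rw [resample' D.A t i (D.A_nonempty i) (fun x a => if a = D.fl x j c then (1 : ℝ) else 0)
    (fun x a b => by simp only [D.fl_upd x t i hi])]
  rw [D.A_card' i hi]
  have : ∀ x : Fin T → I → Fin N, ∑ a ∈ D.A i, (if a = D.fl x j c then (1 : ℝ) else 0) = 1 := by
    intro x
    have : D.A i = Finset.univ := by unfold Data.A; rw [if_neg hi]
    rw [this, Finset.sum_ite_eq', if_pos (Finset.mem_univ _)]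
  rw [Finset.sum_congr rfl (fun x _ => this x), Finset.sum_const, nsmul_eq_mul, mul_one]

lemma Data.chosen (j : J) (hj : j ∈ D.Jas) (c : Fin C)
    (hT : ((D.A (D.g j)).card : ℝ) ≤ 2 * T) :
    (Om T D.A).card * (T / (D.A (D.g j)).card +
      1 / 4 * Real.sqrt (T * (2 / (D.A (D.g j)).card))) ≤
      ∑ x ∈ Om T D.A, ∑ t, (if x t (D.g j) = D.fl x j c then (1 : ℝ) else 0) := by
  set i := D.g j with hi
  set f1 := D.e (D.β j, c, true) with hf1
  set f0 := D.e (D.β j, c, false) with hf0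
  have h1 : f1 ∈ D.A i := D.mem_A j hj c true
  have h0 : f0 ∈ D.A i := D.mem_A j hj c false
  have hne : f1 ≠ f0 := by
    intro h
    have := D.e.injective h
    simp at this
  have hc : (0 : ℝ) < (D.A i).card := by exact_mod_cast (D.A_nonempty i).card_pos
  have hZ : ∀ x : Fin T → I → Fin N, Z i f1 f0 T x = cnt x i f1 - cnt x i f0 := by
    intro x
    unfold Z cnt
    rw [← Finset.sum_sub_distrib]
    apply Finset.sum_congr rfl
    intro t _
    rw [if_pos t.2]
  have hmax : ∀ x : Fin T → I → Fin N,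
      ∑ t, (if x t i = D.fl x j c then (1 : ℝ) else 0) =
        (cnt x i f1 + cnt x i f0) / 2 + |Z i f1 f0 T x| / 2 := by
    intro x
    rw [hZ]
    by_cases hle : cnt x i f0 ≤ cnt x i f1
    · have : D.fl x j c = f1 := by
        unfold Data.fl Data.bs
        rw [if_pos hj, decide_eq_true hle]
      rw [this, abs_of_nonneg (by linarith)]
      unfold cnt; ring
    · have : D.fl x j c = f0 := by
        unfold Data.fl Data.bs
        rw [if_pos hj, decide_eq_false hle]
      rw [this, abs_of_nonpos (by linarith)]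
      unfold cnt; ring
  have hcnt : ∀ f ∈ D.A i, ∑ x ∈ Om T D.A, cnt x i f = (Om T D.A).card * (T / (D.A i).card) := by
    intro f hf
    unfold cnt
    rw [Finset.sum_comm]
    have : ∀ t : Fin T, ∑ x ∈ Om T D.A, (if x t i = f then (1 : ℝ) else 0) =
        (Om T D.A).card * (1 / (D.A i).card) := by
      intro t
      have := res D.A t i (D.A_nonempty i) (fun _ => 1) (fun _ _ => rfl)
        (fun a => if a = f then (1 : ℝ) else 0)
      simp only [one_mul] at this
      rw [this, Finset.sum_ite_eq', if_pos hf, Finset.sum_const, nsmul_eq_mul, mul_one]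
    rw [Finset.sum_congr rfl (fun t _ => this t), Finset.sum_const, Finset.card_univ,
      Fintype.card_fin, nsmul_eq_mul]
    ring
  rw [Finset.sum_congr rfl (fun x _ => hmax x), Finset.sum_add_distrib, ← Finset.sum_div,
    ← Finset.sum_div, Finset.sum_add_distrib, hcnt f1 h1, hcnt f0 h0]
  have := abs_mean D.A i h1 h0 hne hT
  linarith

/-- the price bound for a configuration -/
lemma Data.price (y : J → Fin N → ℝ) (hy : y ∈ Conf J N C) :
    ∑ i, (∑ a ∈ D.A i, ∑ j ∈ nb i, y j a) / (D.A i).card ≤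
      ∑ j ∈ D.Jas, (C : ℝ) / (D.A (D.g j)).card + ∑ i ∈ D.Sᶜ, (nb i).card * ((C : ℝ) / N) := by
  rw [← Finset.sum_add_sum_compl D.S]
  apply add_le_add
  · have h1 : ∑ i ∈ D.S, (∑ a ∈ D.A i, ∑ j ∈ nb i, y j a) / (D.A i).card =
        ∑ i ∈ D.S, ∑ j ∈ nb i, (∑ a ∈ D.A i, y j a) / (D.A i).card := by
      apply Finset.sum_congr rfl
      intro i _
      rw [Finset.sum_comm, Finset.sum_div]
    rw [h1, Finset.sum_comm' (t' := D.Jas) (s' := fun j => D.S.filter (fun i => j ∈ nb i))]
    · apply Finset.sum_le_sum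
      intro j hj
      obtain ⟨g1, g2, g3⟩ := D.hg j hj
      have hc : (0 : ℝ) < (D.A (D.g j)).card := by
        exact_mod_cast (D.A_nonempty _).card_pos
      calc ∑ i ∈ D.S.filter (fun i => j ∈ nb i), (∑ a ∈ D.A i, y j a) / (D.A i).card
          ≤ ∑ i ∈ D.S.filter (fun i => j ∈ nb i), (∑ a ∈ D.A i, y j a) / (D.A (D.g j)).card := by
            apply Finset.sum_le_sum
            intro i hi
            rw [Finset.mem_filter] at hi
            apply div_le_div_of_nonneg_left (Finset.sum_nonneg fun a _ => (hy.1 j a).1) hc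
            rw [D.A_card _ g1, D.A_card _ hi.1]
            exact_mod_cast Nat.mul_le_mul_left _ (g3 i hi.1 hi.2)
        _ = (∑ i ∈ D.S.filter (fun i => j ∈ nb i), ∑ a ∈ D.A i, y j a) / (D.A (D.g j)).card := by
            rw [Finset.sum_div]
        _ ≤ (C : ℝ) / (D.A (D.g j)).card := by
            apply div_le_div_of_nonneg_right _ hc.le
            rw [← Finset.sum_biUnion]
            · exact (Finset.sum_le_sum_of_subset_of_nonneg (Finset.subset_univ _)
                (fun a _ _ => (hy.1 j a).1)).trans (hy.2 j)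
            · intro i hi i' hi' hne
              simp only [Finset.coe_filter, Set.mem_ofPred_eq] at hi hi'
              exact D.A_disj i i' hi.1 hi'.1 hne
    · intro i j
      simp only [Finset.mem_filter]
      constructor
      · rintro ⟨h1, h2⟩
        exact ⟨⟨h1, h2⟩, (D.hJas j).2 ⟨i, h1, h2⟩⟩
      · rintro ⟨⟨h1, h2⟩, -⟩
        exact ⟨h1, h2⟩
  · apply Finset.sum_le_sum
    intro i hi
    rw [Finset.mem_compl] at hi
    have hN : (0 : ℝ) < N := by exact_mod_cast D.hN
    rw [D.A_card' i hi, Finset.sum_comm, ← mul_div_assoc]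
    apply div_le_div_of_nonneg_right _ hN.le
    calc ∑ j ∈ nb i, ∑ a ∈ D.A i, y j a ≤ ∑ _j ∈ nb i, (C : ℝ) := by
          apply Finset.sum_le_sum
          intro j _
          exact (Finset.sum_le_sum_of_subset_of_nonneg (Finset.subset_univ _)
            (fun a _ _ => (hy.1 j a).1)).trans (hy.2 j)
      _ = (nb i).card * C := by rw [Finset.sum_const, nsmul_eq_mul]

lemma past_upd (x : Fin T → I → Fin N) (t : Fin T) (i : I) (a : Fin N) :
    past (upd x t i a) t = past x t := by
  funext s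
  unfold past
  funext i'
  apply upd_ne_time
  intro h
  have := congrArg Fin.val h
  have h2 := s.2
  simp only at this
  omega

lemma Data.policy (π : Policy I J N C) (t : Fin T) :
    ∑ x ∈ Om T D.A, q nb (x t) (π t (past x t)) ≤ (Om T D.A).card *
      (∑ j ∈ D.Jas, (C : ℝ) / (D.A (D.g j)).card + ∑ i ∈ D.Sᶜ, (nb i).card * ((C : ℝ) / N)) := by
  calc ∑ x ∈ Om T D.A, q nb (x t) (π t (past x t))
      ≤ ∑ x ∈ Om T D.A, ∑ i, ∑ j ∈ nb i, (π t (past x t) : J → Fin N → ℝ) j (x t i) := by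
        apply Finset.sum_le_sum
        intro x _
        unfold q
        apply Finset.sum_le_sum
        intro i _
        exact min_le_right _ _
    _ = ∑ i, ∑ x ∈ Om T D.A, ∑ j ∈ nb i, (π t (past x t) : J → Fin N → ℝ) j (x t i) :=
        Finset.sum_comm
    _ = ∑ i, (∑ x ∈ Om T D.A, ∑ a ∈ D.A i, ∑ j ∈ nb i,
          (π t (past x t) : J → Fin N → ℝ) j a) / (D.A i).card := by
        apply Finset.sum_congr rfl
        intro i _
        exact resample' D.A t i (D.A_nonempty i)
          (fun x a => ∑ j ∈ nb i, (π t (past x t) : J → Fin N → ℝ) j a)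
          (fun x a b => by simp only [past_upd])
    _ = ∑ x ∈ Om T D.A, ∑ i, (∑ a ∈ D.A i, ∑ j ∈ nb i,
          (π t (past x t) : J → Fin N → ℝ) j a) / (D.A i).card := by
        rw [Finset.sum_comm]
        apply Finset.sum_congr rfl
        intro i _
        rw [Finset.sum_div]
    _ ≤ ∑ _x ∈ Om T D.A, (∑ j ∈ D.Jas, (C : ℝ) / (D.A (D.g j)).card +
          ∑ i ∈ D.Sᶜ, (nb i).card * ((C : ℝ) / N)) :=
        Finset.sum_le_sum fun x _ => D.price _ (π t (past x t)).2
    _ = _ := by rw [Finset.sum_const, nsmul_eq_mul]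

/-- there is a bad request sequence -/
lemma Data.exists_bad (π : Policy I J N C) (hT : ∀ i ∈ D.S, C * (nb i).card ≤ T) :
    ∃ x : Fin T → I → Fin N, (C : ℝ) / 4 * ∑ j ∈ D.Jas,
      Real.sqrt (T * (2 / (D.A (D.g j)).card)) ≤
      ∑ t, q nb (x t) (D.yst x) - ∑ t, q nb (x t) (π t (past x t)) := by
  have hne : (Om T D.A).Nonempty := Finset.card_pos.1 (Om_card_pos T D.A_nonempty)
  suffices h : ∑ _x ∈ Om T D.A, (C : ℝ) / 4 * ∑ j ∈ D.Jas,
      Real.sqrt (T * (2 / (D.A (D.g j)).card)) ≤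
      ∑ x ∈ Om T D.A, (∑ t, q nb (x t) (D.yst x) - ∑ t, q nb (x t) (π t (past x t))) by
    obtain ⟨x, -, hx⟩ := Finset.exists_le_of_sum_le hne h
    exact ⟨x, hx⟩
  have hT' : ∀ j ∈ D.Jas, ((D.A (D.g j)).card : ℝ) ≤ 2 * T := by
    intro j hj
    rw [D.A_card _ (D.hg j hj).1]
    have := hT _ (D.hg j hj).1
    have h2 : (2 * C * (nb (D.g j)).card : ℕ) ≤ 2 * T := by nlinarith
    exact_mod_cast h2
  have hlow : (Om T D.A).card * (∑ j ∈ D.Jas, (C : ℝ) * (T / (D.A (D.g j)).card +
      1 / 4 * Real.sqrt (T * (2 / (D.A (D.g j)).card))) +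
        T * ∑ i ∈ D.Sᶜ, (nb i).card * ((C : ℝ) / N)) ≤
      ∑ x ∈ Om T D.A, ∑ t, q nb (x t) (D.yst x) := by
    calc (Om T D.A).card * (∑ j ∈ D.Jas, (C : ℝ) * (T / (D.A (D.g j)).card +
          1 / 4 * Real.sqrt (T * (2 / (D.A (D.g j)).card))) +
            T * ∑ i ∈ D.Sᶜ, (nb i).card * ((C : ℝ) / N))
        ≤ ∑ j ∈ D.Jas, ∑ c, ∑ x ∈ Om T D.A, ∑ t,
            (if x t (D.g j) = D.fl x j c then (1 : ℝ) else 0) +
          ∑ i ∈ D.Sᶜ, ∑ j ∈ nb i, ∑ c, ∑ t, ∑ x ∈ Om T D.A,
            (if x t i = D.fl x j c then (1 : ℝ) else 0) := by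
          rw [mul_add]
          apply add_le_add
          · rw [Finset.mul_sum]
            apply Finset.sum_le_sum
            intro j hj
            calc _ = ∑ _c : Fin C, ((Om T D.A).card * ((T : ℝ) / (D.A (D.g j)).card +
                  1 / 4 * Real.sqrt (T * (2 / (D.A (D.g j)).card)))) := by
                  rw [Finset.sum_const, Finset.card_univ, Fintype.card_fin, nsmul_eq_mul]
                  ring
              _ ≤ _ := Finset.sum_le_sum fun c _ => D.chosen j hj c (hT' j hj)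
          · rw [← mul_assoc, Finset.mul_sum]
            apply Finset.sum_le_sum
            intro i hi
            rw [Finset.mem_compl] at hi
            rw [Finset.sum_congr rfl fun j _ => Finset.sum_congr rfl fun c _ =>
              Finset.sum_congr rfl fun t _ => D.other t i hi j c]
            simp only [Finset.sum_const, Finset.card_univ, Fintype.card_fin, nsmul_eq_mul]
            apply le_of_eq
            ring
      _ = ∑ x ∈ Om T D.A, ∑ t, ((∑ j ∈ D.Jas, ∑ c,
            if x t (D.g j) = D.fl x j c then (1 : ℝ) else 0) +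
            (∑ i ∈ D.Sᶜ, ∑ j ∈ nb i, ∑ c, if x t i = D.fl x j c then (1 : ℝ) else 0)) := by
          simp only [Finset.sum_add_distrib]
          congr 1
          · rw [Finset.sum_congr rfl fun j _ => Finset.sum_comm, Finset.sum_comm]
            apply Finset.sum_congr rfl
            intro x _
            rw [Finset.sum_congr rfl fun j _ => Finset.sum_comm, Finset.sum_comm]
          · rw [Finset.sum_congr rfl fun i _ => Finset.sum_congr rfl fun j _ =>
              Finset.sum_congr rfl fun c _ => Finset.sum_comm,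
              Finset.sum_congr rfl fun i _ => Finset.sum_congr rfl fun j _ => Finset.sum_comm,
              Finset.sum_congr rfl fun i _ => Finset.sum_comm, Finset.sum_comm]
            apply Finset.sum_congr rfl
            intro x _
            rw [Finset.sum_congr rfl fun i _ => Finset.sum_congr rfl fun j _ => Finset.sum_comm,
              Finset.sum_congr rfl fun i _ => Finset.sum_comm, Finset.sum_comm]
      _ ≤ _ := Finset.sum_le_sum fun x _ => Finset.sum_le_sum fun t _ => D.q_yst x t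
  have hup : ∑ x ∈ Om T D.A, ∑ t, q nb (x t) (π t (past x t)) ≤ (Om T D.A).card *
      (T * (∑ j ∈ D.Jas, (C : ℝ) / (D.A (D.g j)).card +
        ∑ i ∈ D.Sᶜ, (nb i).card * ((C : ℝ) / N))) := by
    rw [Finset.sum_comm]
    calc _ ≤ ∑ _t : Fin T, (Om T D.A).card *
          (∑ j ∈ D.Jas, (C : ℝ) / (D.A (D.g j)).card +
            ∑ i ∈ D.Sᶜ, (nb i).card * ((C : ℝ) / N)) := Finset.sum_le_sum fun t _ => D.policy π t
      _ = _ := by
          rw [Finset.sum_const, Finset.card_univ, Fintype.card_fin, nsmul_eq_mul]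
          ring
  rw [Finset.sum_const, nsmul_eq_mul, Finset.sum_sub_distrib]
  have e1 : ∑ j ∈ D.Jas, (C : ℝ) * (T / (D.A (D.g j)).card +
      1 / 4 * Real.sqrt (T * (2 / (D.A (D.g j)).card))) =
      T * ∑ j ∈ D.Jas, (C : ℝ) / (D.A (D.g j)).card + (C : ℝ) / 4 * ∑ j ∈ D.Jas,
      Real.sqrt (T * (2 / (D.A (D.g j)).card)) := by
    rw [Finset.mul_sum, Finset.mul_sum, ← Finset.sum_add_distrib]
    apply Finset.sum_congr rfl
    intro j _
    ring
  rw [e1] at hlow
  nlinarith

end lower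

/-! ### Choice of the users -/

lemma split_set {I : Type} [DecidableEq I] (w : I → ℕ) (B : ℕ) (U : Finset I)
    (h : B < ∑ i ∈ U, w i) :
    ∃ V ⊆ U, ∃ v ∈ V, B < ∑ i ∈ V, w i ∧ ∑ i ∈ V.erase v, w i ≤ B := by
  induction U using Finset.induction_on with
  | empty => simp at h
  | insert a U ha ih =>
    by_cases h1 : B < ∑ i ∈ U, w i
    · obtain ⟨V, hV, v, hv, h2⟩ := ih h1
      exact ⟨V, hV.trans (Finset.subset_insert _ _), v, hv, h2⟩
    · refine ⟨insert a U, subset_rfl, a, Finset.mem_insert_self _ _, h, ?_⟩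
      rw [Finset.erase_insert ha]
      exact not_lt.1 h1

lemma select {I : Type} [DecidableEq I] (w : I → ℕ) (r : I → ℝ) (hr : ∀ i, 0 ≤ r i) (B : ℕ)
    (hB : ∀ i, w i ≤ B) (m : ℕ) : ∀ U : Finset I, ∑ i ∈ U, w i ≤ (m + 1) * B →
    ∃ S ⊆ U, ∑ i ∈ S, w i ≤ B ∧ ∑ i ∈ U, r i ≤ 2 * (m + 1 : ℝ) * ∑ i ∈ S, r i := by
  induction m with
  | zero =>
    intro U hU
    refine ⟨U, subset_rfl, by simpa using hU, ?_⟩
    have := Finset.sum_nonneg (s := U) fun i _ => hr i
    simp; linarith
  | succ m ih =>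
    intro U hU
    by_cases h1 : B < ∑ i ∈ U, w i
    · obtain ⟨V, hV, v, hv, h2, h3⟩ := split_set w B U h1
      have h4 : ∑ i ∈ U \ V, w i + ∑ i ∈ V, w i = ∑ i ∈ U, w i := Finset.sum_sdiff hV
      have h5 : ∑ i ∈ U \ V, w i ≤ (m + 1) * B := by
        have : (m + 1 + 1) * B = (m + 1) * B + B := by ring
        omega
      obtain ⟨S, hS, h6, h7⟩ := ih (U \ V) h5
      have h8 : ∑ i ∈ U, r i = ∑ i ∈ U \ V, r i + (∑ i ∈ V.erase v, r i + r v) := by
        rw [← Finset.sum_sdiff hV, Finset.sum_erase_add _ _ hv]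
      have g1 : 0 ≤ ∑ i ∈ S, r i := Finset.sum_nonneg fun i _ => hr i
      have g2 : 0 ≤ ∑ i ∈ V.erase v, r i := Finset.sum_nonneg fun i _ => hr i
      have g3 := hr v
      push_cast
      have hm : (0 : ℝ) ≤ m := Nat.cast_nonneg m
      by_cases c1 : ∑ i ∈ S, r i ≤ ∑ i ∈ V.erase v, r i
      · by_cases c2 : ∑ i ∈ V.erase v, r i ≤ r v
        · refine ⟨{v}, by simpa using hV hv, by simpa using hB v, ?_⟩
          rw [Finset.sum_singleton, h8]
          nlinarith
        · refine ⟨V.erase v, (Finset.erase_subset _ _).trans hV, h3, ?_⟩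
          rw [h8]
          nlinarith
      · by_cases c2 : ∑ i ∈ S, r i ≤ r v
        · refine ⟨{v}, by simpa using hV hv, by simpa using hB v, ?_⟩
          rw [Finset.sum_singleton, h8]
          nlinarith
        · refine ⟨S, hS.trans Finset.sdiff_subset, h6, ?_⟩
          rw [h8]
          nlinarith
    · refine ⟨U, subset_rfl, not_lt.1 h1, ?_⟩
      have := Finset.sum_nonneg (s := U) fun i _ => hr i
      push_cast
      have hm : (0 : ℝ) ≤ m := Nat.cast_nonneg m
      nlinarith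

section lower2

variable {I J : Type} [Fintype I] [Fintype J] [DecidableEq I] [DecidableEq J] {N C : ℕ}

lemma exists_data [Nonempty I] [Nonempty J] (nb : I → Finset J) (S : Finset I) (hS : ∀ i ∈ S, 0 < (nb i).card)
    (hSJ : ∑ i ∈ S, (nb i).card ≤ Fintype.card J) (hC : 0 < C)
    (hN : 2 * C * Fintype.card J ≤ N) : ∃ D : Data nb N C, D.S = S := by
  classical
  have hJ : 0 < Fintype.card J := Fintype.card_pos
  obtain ⟨e⟩ : Nonempty (J × Fin C × Bool ↪ Fin N) := by
    apply Function.Embedding.nonempty_of_card_le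
    rw [Fintype.card_prod, Fintype.card_prod, Fintype.card_fin, Fintype.card_fin,
      Fintype.card_bool]
    calc Fintype.card J * (C * 2) = 2 * C * Fintype.card J := by ring
      _ ≤ N := hN
  let Pr : Finset (I × J) := S.biUnion (fun i => (nb i).image (fun j => (i, j)))
  have hPr : ∀ i j, (i, j) ∈ Pr ↔ i ∈ S ∧ j ∈ nb i := by
    intro i j
    simp only [Pr, Finset.mem_biUnion, Finset.mem_image, Prod.mk.injEq]
    constructor
    · rintro ⟨i', h1, j', h2, rfl, rfl⟩; exact ⟨h1, h2⟩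
    · rintro ⟨h1, h2⟩; exact ⟨i, h1, j, h2, rfl, rfl⟩
  have hPrc : Pr.card ≤ Fintype.card J := by
    refine (Finset.card_biUnion_le).trans ((Finset.sum_le_sum fun i _ => ?_).trans hSJ)
    exact Finset.card_image_le
  obtain ⟨f⟩ : Nonempty ({p // p ∈ Pr} ↪ J) := by
    apply Function.Embedding.nonempty_of_card_le
    rw [Fintype.card_coe]; exact hPrc
  let κ : I → J → J := fun i j => if h : (i, j) ∈ Pr then f ⟨(i, j), h⟩ else j
  have hκ : ∀ i ∈ S, ∀ j ∈ nb i, ∀ i' ∈ S, ∀ j' ∈ nb i', κ i j = κ i' j' → i = i' ∧ j = j' := by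
    intro i hi j hj i' hi' j' hj' h
    simp only [κ] at h
    rw [dif_pos ((hPr i j).2 ⟨hi, hj⟩), dif_pos ((hPr i' j').2 ⟨hi', hj'⟩)] at h
    have := f.injective h
    simpa using this
  let Jas : Finset J := Finset.univ.filter (fun j => ∃ i ∈ S, j ∈ nb i)
  have hJas : ∀ j, j ∈ Jas ↔ ∃ i ∈ S, j ∈ nb i := by
    intro j; simp [Jas]
  have hex : ∀ j ∈ Jas, ∃ i, i ∈ S ∧ j ∈ nb i ∧
      ∀ i' ∈ S, j ∈ nb i' → (nb i).card ≤ (nb i').card := by
    intro j hj
    obtain ⟨i0, h1, h2⟩ := (hJas j).1 hj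
    obtain ⟨i, hi, hmin⟩ := Finset.exists_min_image (S.filter (fun i => j ∈ nb i))
      (fun i => (nb i).card) ⟨i0, Finset.mem_filter.2 ⟨h1, h2⟩⟩
    rw [Finset.mem_filter] at hi
    exact ⟨i, hi.1, hi.2, fun i' h3 h4 => hmin i' (Finset.mem_filter.2 ⟨h3, h4⟩)⟩
  let g : J → I := fun j => if h : j ∈ Jas then (hex j h).choose else Classical.arbitrary I
  have hg : ∀ j ∈ Jas, g j ∈ S ∧ j ∈ nb (g j) ∧
      ∀ i ∈ S, j ∈ nb i → (nb (g j)).card ≤ (nb i).card := by
    intro j hj
    have : g j = (hex j hj).choose := by simp only [g]; rw [dif_pos hj]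
    rw [this]
    exact (hex j hj).choose_spec
  have hinj : Set.InjOn (fun j => κ (g j) j) Jas := by
    intro j hj j' hj' h
    obtain ⟨a1, a2, -⟩ := hg j hj
    obtain ⟨b1, b2, -⟩ := hg j' hj'
    exact (hκ _ a1 _ a2 _ b1 _ b2 h).2
  let ee : {j // j ∈ Jas} ≃ {b // b ∈ Jas.image (fun j => κ (g j) j)} :=
    Equiv.ofBijective (fun j => ⟨κ (g j) j, Finset.mem_image_of_mem (fun j => κ (g j) j) j.2⟩) (by
      constructor
      · intro a b hab
        exact Subtype.ext (hinj a.2 b.2 (by simpa using hab))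
      · rintro ⟨b, hb⟩
        obtain ⟨a, ha, rfl⟩ := Finset.mem_image.1 hb
        exact ⟨⟨a, ha⟩, rfl⟩)
  let σ : Equiv.Perm J := ee.extendSubtype
  have hσ : ∀ j ∈ Jas, σ j = κ (g j) j := by
    intro j hj
    have := Equiv.extendSubtype_apply_of_mem ee j hj
    rw [this]; rfl
  exact ⟨{ S := S, e := e, κ := κ, hκ := hκ, Jas := Jas, hJas := hJas, g := g,
           hg := hg, β := σ, hβ := σ.injective,
           hβ' := hσ, hpos := hS, hC := hC,
           hN := by
             have : 0 < 2 * C * Fintype.card J := by positivity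
             omega }, rfl⟩

lemma q_nonneg (nb : I → Finset J) (x : I → Fin N) {y : J → Fin N → ℝ} (hy : y ∈ Conf J N C) :
    0 ≤ q nb x y := by
  unfold q
  apply Finset.sum_nonneg
  intro i _
  exact le_min zero_le_one (Finset.sum_nonneg fun j _ => (hy.1 j _).1)

lemma q_le (nb : I → Finset J) (x : I → Fin N) (y : J → Fin N → ℝ) :
    q nb x y ≤ Fintype.card I := by
  unfold q
  calc _ ≤ ∑ _i : I, (1 : ℝ) := Finset.sum_le_sum fun i _ => min_le_left _ _
    _ = Fintype.card I := by simp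

lemma regret_ge (nb : I → Finset J) {T : ℕ} (π : Policy I J N C) (x : Fin T → I → Fin N)
    {y : J → Fin N → ℝ} (hy : y ∈ Conf J N C) :
    ∑ t, q nb (x t) y - ∑ t, q nb (x t) (π t (past x t)) ≤ regret nb N C T π := by
  unfold regret
  have hb : BddAbove (Set.range fun y : Conf J N C => ∑ t, q nb (x t) y) := by
    refine ⟨T * Fintype.card I, ?_⟩
    rintro _ ⟨y, rfl⟩
    calc ∑ t, q nb (x t) y ≤ ∑ _t : Fin T, (Fintype.card I : ℝ) :=
          Finset.sum_le_sum fun t _ => q_le nb _ _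
      _ = T * Fintype.card I := by simp
  have h1 : ∑ t, q nb (x t) y ≤ ⨆ y : Conf J N C, ∑ t, q nb (x t) y :=
    le_ciSup hb (⟨y, hy⟩ : Conf J N C)
  have h2 := le_ciSup (f := fun x : Fin T → I → Fin N =>
    ((⨆ y : Conf J N C, ∑ t, q nb (x t) y) - ∑ t, q nb (x t) (π t (past x t))))
    (Set.finite_range _).bddAbove x
  linarith

theorem lower_bound [Nonempty J] (nb : I → Finset J) {d T : ℕ} (hd : 1 ≤ d) (hC : 1 ≤ C)
    (hreg : ∀ j, (Finset.univ.filter (fun i => j ∈ nb i)).card = d)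
    (hN : 2 * C * Fintype.card J ≤ N) (hT : C * Fintype.card J ≤ T) (π : Policy I J N C) :
    1 / (8 * (d : ℝ) ^ 2) * (Real.sqrt (C * T) * ∑ i, Real.sqrt (nb i).card) ≤
      regret nb N C T π := by
  classical
  have hJ : 0 < Fintype.card J := Fintype.card_pos
  have hI : Nonempty I := by
    obtain ⟨j⟩ := ‹Nonempty J›
    have : 0 < (Finset.univ.filter (fun i => j ∈ nb i)).card := by rw [hreg j]; omega
    obtain ⟨i, -⟩ := Finset.card_pos.1 this
    exact ⟨i⟩
  -- the total degree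
  have htot : ∑ i, (nb i).card = d * Fintype.card J := by
    calc ∑ i, (nb i).card = ∑ i, ∑ j, if j ∈ nb i then 1 else 0 := by
          apply Finset.sum_congr rfl
          intro i _
          simp
      _ = ∑ j, ∑ i, if j ∈ nb i then 1 else 0 := Finset.sum_comm
      _ = ∑ j : J, d := by
          apply Finset.sum_congr rfl
          intro j _
          rw [← Finset.card_filter]
          exact hreg j
      _ = d * Fintype.card J := by simp [mul_comm]
  obtain ⟨m, rfl⟩ : ∃ m, d = m + 1 := ⟨d - 1, by omega⟩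
  obtain ⟨S0, -, hS1, hS2⟩ := select (fun i => (nb i).card) (fun i => Real.sqrt (nb i).card)
    (fun i => Real.sqrt_nonneg _) (Fintype.card J) (fun i => Finset.card_le_univ _) m
    Finset.univ (le_of_eq htot)
  set S : Finset I := S0.filter (fun i => 0 < (nb i).card) with hS
  have hSsum : ∑ i ∈ S, Real.sqrt (nb i).card = ∑ i ∈ S0, Real.sqrt (nb i).card := by
    rw [hS, Finset.sum_filter]
    apply Finset.sum_congr rfl
    intro i _
    split_ifs with h
    · rfl
    · have : (nb i).card = 0 := by omega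
      rw [this]; simp
  have hScard : ∑ i ∈ S, (nb i).card ≤ Fintype.card J :=
    (Finset.sum_le_sum_of_subset (Finset.filter_subset _ _)).trans hS1
  obtain ⟨D, hD⟩ := exists_data (N := N) (C := C) nb S
    (fun i hi => (Finset.mem_filter.1 hi).2) hScard hC hN
  obtain ⟨x, hx⟩ := D.exists_bad (T := T) π (fun i _ =>
    (Nat.mul_le_mul_left C (Finset.card_le_univ _)).trans hT)
  refine le_trans ?_ (hx.trans (regret_ge nb π x (D.yst_mem x)))
  have hC' : (0 : ℝ) < C := by exact_mod_cast hC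
  have hT' : (0 : ℝ) ≤ T := Nat.cast_nonneg T
  have hd' : (0 : ℝ) < ((m + 1 : ℕ) : ℝ) := by positivity
  have hsq : ∀ j ∈ D.Jas, (C : ℝ) * Real.sqrt (T * (2 / (D.A (D.g j)).card)) =
      Real.sqrt (C * T) * (1 / Real.sqrt (nb (D.g j)).card) := by
    intro j hj
    obtain ⟨g1, -, -⟩ := D.hg j hj
    rw [D.A_card _ g1]
    have hn : (0 : ℝ) < ((nb (D.g j)).card : ℝ) := by exact_mod_cast D.hpos _ g1
    have e1 : (T : ℝ) * (2 / ((2 * C * (nb (D.g j)).card : ℕ) : ℝ)) =
        (C * T) / (C ^ 2 * (nb (D.g j)).card) := by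
      push_cast
      field_simp
    have e2 : Real.sqrt ((C : ℝ) ^ 2 * (nb (D.g j)).card) = C * Real.sqrt (nb (D.g j)).card := by
      rw [Real.sqrt_mul (by positivity), Real.sqrt_sq hC'.le]
    have : Real.sqrt (nb (D.g j)).card ≠ 0 := (Real.sqrt_pos.2 hn).ne'
    rw [e1, Real.sqrt_div (by positivity), e2]
    generalize Real.sqrt (C * T) = a
    field_simp
  have hmain : ∑ i ∈ S, Real.sqrt (nb i).card ≤
      ((m + 1 : ℕ) : ℝ) * ∑ j ∈ D.Jas, 1 / Real.sqrt (nb (D.g j)).card := by
    calc ∑ i ∈ S, Real.sqrt (nb i).card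
        = ∑ i ∈ D.S, ∑ _j ∈ nb i, 1 / Real.sqrt (nb i).card := by
          rw [hD]
          apply Finset.sum_congr rfl
          intro i hi
          have hn : (0 : ℝ) < ((nb i).card : ℝ) := by exact_mod_cast (Finset.mem_filter.1 hi).2
          rw [Finset.sum_const, nsmul_eq_mul, mul_one_div, Real.div_sqrt]
      _ = ∑ j ∈ D.Jas, ∑ i ∈ D.S.filter (fun i => j ∈ nb i), 1 / Real.sqrt (nb i).card := by
          rw [Finset.sum_comm' (t' := D.Jas) (s' := fun j => D.S.filter (fun i => j ∈ nb i))]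
          intro i j
          simp only [Finset.mem_filter]
          constructor
          · rintro ⟨h1, h2⟩
            exact ⟨⟨h1, h2⟩, (D.hJas j).2 ⟨i, h1, h2⟩⟩
          · rintro ⟨⟨h1, h2⟩, -⟩
            exact ⟨h1, h2⟩
      _ ≤ ∑ j ∈ D.Jas, ∑ _i ∈ D.S.filter (fun i => j ∈ nb i),
            1 / Real.sqrt (nb (D.g j)).card := by
          apply Finset.sum_le_sum
          intro j hj
          obtain ⟨g1, g2, g3⟩ := D.hg j hj
          apply Finset.sum_le_sum
          intro i hi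
          rw [Finset.mem_filter] at hi
          have hn : (0 : ℝ) < ((nb (D.g j)).card : ℝ) := by exact_mod_cast D.hpos _ g1
          apply one_div_le_one_div_of_le (Real.sqrt_pos.2 hn)
          apply Real.sqrt_le_sqrt
          exact_mod_cast g3 i hi.1 hi.2
      _ ≤ ∑ j ∈ D.Jas, ((m + 1 : ℕ) : ℝ) * (1 / Real.sqrt (nb (D.g j)).card) := by
          apply Finset.sum_le_sum
          intro j _
          rw [Finset.sum_const, nsmul_eq_mul]
          apply mul_le_mul_of_nonneg_right _ (by positivity)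
          have : (D.S.filter (fun i => j ∈ nb i)).card ≤ m + 1 := by
            rw [← hreg j]
            apply Finset.card_le_card
            intro i hi
            rw [Finset.mem_filter] at hi ⊢
            exact ⟨Finset.mem_univ _, hi.2⟩
          exact_mod_cast this
      _ = _ := by rw [Finset.mul_sum]
  calc 1 / (8 * (((m + 1 : ℕ) : ℝ)) ^ 2) * (Real.sqrt (C * T) * ∑ i, Real.sqrt (nb i).card)
      ≤ 1 / (8 * (((m + 1 : ℕ) : ℝ)) ^ 2) * (Real.sqrt (C * T) *
        (2 * ((m + 1 : ℕ) : ℝ) * (((m + 1 : ℕ) : ℝ) *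
          ∑ j ∈ D.Jas, 1 / Real.sqrt (nb (D.g j)).card))) := by
        apply mul_le_mul_of_nonneg_left _ (by positivity)
        apply mul_le_mul_of_nonneg_left _ (Real.sqrt_nonneg _)
        refine hS2.trans ?_
        rw [← hSsum]
        push_cast
        apply mul_le_mul_of_nonneg_left _ (by positivity)
        push_cast at hmain
        exact hmain
    _ = 1 / 4 * (Real.sqrt (C * T) * ∑ j ∈ D.Jas, 1 / Real.sqrt (nb (D.g j)).card) := by
        generalize (∑ j ∈ D.Jas, 1 / Real.sqrt (nb (D.g j)).card) = X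
        generalize Real.sqrt (C * T) = a
        generalize ((m + 1 : ℕ) : ℝ) = z at hd' ⊢
        field_simp
        ring
    _ = (C : ℝ) / 4 * ∑ j ∈ D.Jas, Real.sqrt (T * (2 / (D.A (D.g j)).card)) := by
        rw [Finset.mul_sum, ← Finset.sum_congr rfl hsq, ← Finset.mul_sum]
        ring

end lower2

/-! ### The upper bound -/

section upper

variable {I J : Type} [Fintype I] [Fintype J] [DecidableEq I] [DecidableEq J]

/-- step parameters -/
noncomputable def eta (nb : I → Finset J) (C T : ℕ) (i : I) : ℝ :=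
  Real.sqrt (C * (nb i).card / T)

/-- the set of the (rescaled) reward vectors -/
def KK (nb : I → Finset J) (N C T : ℕ) : Set (EuclideanSpace ℝ (I × Fin N)) :=
  {v | ∃ y ∈ Conf J N C, ∀ i f, 0 ≤ v (i, f) ∧
    v (i, f) ≤ (Real.sqrt (eta nb C T i))⁻¹ * min 1 (∑ j ∈ nb i, y j f)}

lemma zero_mem (nb : I → Finset J) (N C T : ℕ) : (0 : EuclideanSpace ℝ (I × Fin N)) ∈
    KK nb N C T := by
  refine ⟨0, ⟨fun j f => by simp, fun j => by simp⟩, fun i f => ⟨by simp, ?_⟩⟩
  simp

lemma Conf_compact (J : Type) [Fintype J] (N C : ℕ) : IsCompact (Conf J N C) := by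
  have h1 : Conf J N C = Set.Icc (0 : J → Fin N → ℝ) 1 ∩ {y | ∀ j, ∑ f, y j f ≤ C} := by
    ext y
    simp only [Conf, Set.mem_ofPred_eq, Set.mem_inter_iff, Set.mem_Icc, Pi.le_def, Pi.zero_apply,
      Pi.one_apply]
    constructor
    · rintro ⟨h1, h2⟩
      exact ⟨⟨fun j f => (h1 j f).1, fun j f => (h1 j f).2⟩, h2⟩
    · rintro ⟨⟨h1, h3⟩, h2⟩
      exact ⟨fun j f => ⟨h1 j f, h3 j f⟩, h2⟩
  rw [h1]
  apply isCompact_Icc.inter_right
  have h2 : {y : J → Fin N → ℝ | ∀ j, ∑ f, y j f ≤ (C : ℝ)} =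
      ⋂ j, {y : J → Fin N → ℝ | ∑ f, y j f ≤ (C : ℝ)} := by ext; simp
  rw [h2]
  refine isClosed_iInter fun j => isClosed_le ?_ continuous_const
  fun_prop

lemma KK_closed (nb : I → Finset J) (N C T : ℕ) : IsClosed (KK nb N C T) := by
  have : CompactSpace (Conf J N C) := isCompact_iff_compactSpace.1 (Conf_compact J N C)
  let Q : Set ((Conf J N C) × EuclideanSpace ℝ (I × Fin N)) :=
    {p | ∀ i f, 0 ≤ p.2 (i, f) ∧
      p.2 (i, f) ≤ (Real.sqrt (eta nb C T i))⁻¹ *
        min 1 (∑ j ∈ nb i, (p.1 : J → Fin N → ℝ) j f)}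
  have hQ : IsClosed Q := by
    have : Q = ⋂ i, ⋂ f, ({p | 0 ≤ p.2 (i, f)} ∩ {p | p.2 (i, f) ≤
        (Real.sqrt (eta nb C T i))⁻¹ *
        min 1 (∑ j ∈ nb i, (p.1 : J → Fin N → ℝ) j f)}) := by
      ext p; simp [Q]
    rw [this]
    refine isClosed_iInter fun i => isClosed_iInter fun f => IsClosed.inter ?_ ?_
    · apply isClosed_le continuous_const
      fun_prop
    · apply isClosed_le
      · fun_prop
      · apply Continuous.mul continuous_const
        apply Continuous.min continuous_const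
        apply continuous_finsetSum
        intro j _
        have h1 : Continuous fun p : (Conf J N C) × EuclideanSpace ℝ (I × Fin N) =>
            (p.1 : J → Fin N → ℝ) := continuous_subtype_val.comp continuous_fst
        exact (continuous_apply f).comp ((continuous_apply j).comp h1)
  have hK : KK nb N C T = Prod.snd '' Q := by
    ext v
    constructor
    · rintro ⟨y, hy, h⟩
      exact ⟨(⟨y, hy⟩, v), h, rfl⟩
    · rintro ⟨⟨y, v⟩, h, rfl⟩
      exact ⟨y, y.2, h⟩
  rw [hK]
  exact isClosedMap_snd_of_compactSpace Q hQ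

lemma KK_convex (nb : I → Finset J) (N C T : ℕ) : Convex ℝ (KK nb N C T) := by
  rintro v ⟨y, hy, hv⟩ v' ⟨y', hy', hv'⟩ a b ha hb hab
  refine ⟨fun j f => a * y j f + b * y' j f, ⟨fun j f => ⟨?_, ?_⟩, fun j => ?_⟩, fun i f => ?_⟩
  · have := (hy.1 j f).1
    have := (hy'.1 j f).1
    positivity
  · have h1 := (hy.1 j f).2
    have h2 := (hy'.1 j f).2
    nlinarith
  · rw [Finset.sum_add_distrib, ← Finset.mul_sum, ← Finset.mul_sum]
    have h1 := hy.2 j
    have h2 := hy'.2 j
    have : (C : ℝ) = a * C + b * C := by rw [← add_mul, hab, one_mul]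
    nlinarith
  · have h1 := hv i f
    have h2 := hv' i f
    have e : (a • v + b • v') (i, f) = a * v (i, f) + b * v' (i, f) := by simp
    rw [e]
    constructor
    · have := h1.1; have := h2.1; positivity
    · have hc : 0 ≤ (Real.sqrt (eta nb C T i))⁻¹ := by positivity
      have hmin : a * min 1 (∑ j ∈ nb i, y j f) + b * min 1 (∑ j ∈ nb i, y' j f) ≤
          min 1 (∑ j ∈ nb i, (a * y j f + b * y' j f)) := by
        apply le_min
        · have g1 := min_le_left 1 (∑ j ∈ nb i, y j f)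
          have g2 := min_le_left 1 (∑ j ∈ nb i, y' j f)
          nlinarith
        · rw [Finset.sum_add_distrib, ← Finset.mul_sum, ← Finset.mul_sum]
          have g1 := min_le_right 1 (∑ j ∈ nb i, y j f)
          have g2 := min_le_right 1 (∑ j ∈ nb i, y' j f)
          nlinarith
      calc a * v (i, f) + b * v' (i, f)
          ≤ a * ((Real.sqrt (eta nb C T i))⁻¹ * min 1 (∑ j ∈ nb i, y j f)) +
            b * ((Real.sqrt (eta nb C T i))⁻¹ * min 1 (∑ j ∈ nb i, y' j f)) := by
            have := mul_le_mul_of_nonneg_left h1.2 ha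
            have := mul_le_mul_of_nonneg_left h2.2 hb
            linarith
        _ = (Real.sqrt (eta nb C T i))⁻¹ * (a * min 1 (∑ j ∈ nb i, y j f) +
            b * min 1 (∑ j ∈ nb i, y' j f)) := by ring
        _ ≤ _ := mul_le_mul_of_nonneg_left hmin hc

/-- projection onto `KK` -/
lemma exists_proj (nb : I → Finset J) (N C T : ℕ) (u : EuclideanSpace ℝ (I × Fin N)) :
    ∃ v ∈ KK nb N C T, ∀ w ∈ KK nb N C T, ‖v - w‖ ^ 2 ≤ ‖u - w‖ ^ 2 := by
  obtain ⟨v, hv, h⟩ := exists_norm_eq_iInf_of_complete_convex ⟨0, zero_mem nb N C T⟩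
    (KK_closed nb N C T).isComplete (KK_convex nb N C T) u
  refine ⟨v, hv, fun w hw => ?_⟩
  have h1 := (norm_eq_iInf_iff_real_inner_le_zero (KK_convex nb N C T) hv).1 h w hw
  have h2 : ‖u - w‖ ^ 2 = ‖(u - v) - (w - v)‖ ^ 2 := by congr 2; abel
  have h3 : ‖v - w‖ = ‖w - v‖ := norm_sub_rev _ _
  have h4 := norm_sub_sq_real (u - v) (w - v)
  rw [h2, h3, h4]
  have := sq_nonneg ‖u - v‖
  linarith

/-- the projection -/
noncomputable def proj (nb : I → Finset J) (N C T : ℕ) (u : EuclideanSpace ℝ (I × Fin N)) :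
    KK nb N C T := ⟨(exists_proj nb N C T u).choose, (exists_proj nb N C T u).choose_spec.1⟩

lemma proj_le (nb : I → Finset J) (N C T : ℕ) (u w : EuclideanSpace ℝ (I × Fin N))
    (hw : w ∈ KK nb N C T) :
    ‖(proj nb N C T u : EuclideanSpace ℝ (I × Fin N)) - w‖ ^ 2 ≤ ‖u - w‖ ^ 2 :=
  (exists_proj nb N C T u).choose_spec.2 w hw

/-- the gradient -/
noncomputable def gr (nb : I → Finset J) (N C T : ℕ) (x : I → Fin N) :
    EuclideanSpace ℝ (I × Fin N) :=
  WithLp.toLp 2 (fun p => if p.2 = x p.1 then Real.sqrt (eta nb C T p.1) else 0)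

/-- the iterates -/
noncomputable def VV (nb : I → Finset J) (N C T : ℕ) : (t : ℕ) → (Fin t → I → Fin N) → KK nb N C T
  | 0, _ => ⟨0, zero_mem nb N C T⟩
  | t + 1, x => proj nb N C T ((VV nb N C T t (fun s => x s.castSucc) :
      EuclideanSpace ℝ (I × Fin N)) + gr nb N C T (x (Fin.last t)))

/-- the policy -/
noncomputable def pol (nb : I → Finset J) (N C T : ℕ) : Policy I J N C :=
  fun t x => ⟨(VV nb N C T t x).2.choose, (VV nb N C T t x).2.choose_spec.1⟩

lemma pol_spec (nb : I → Finset J) (N C T : ℕ) (t : ℕ) (x : Fin t → I → Fin N) (i : I)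
    (f : Fin N) : Real.sqrt (eta nb C T i) *
      (VV nb N C T t x : EuclideanSpace ℝ (I × Fin N)) (i, f) ≤
      min 1 (∑ j ∈ nb i, (pol nb N C T t x : J → Fin N → ℝ) j f) := by
  have h := (VV nb N C T t x).2.choose_spec.2 i f
  have hy := (VV nb N C T t x).2.choose_spec.1
  have hmin : 0 ≤ min 1 (∑ j ∈ nb i, (pol nb N C T t x : J → Fin N → ℝ) j f) :=
    le_min zero_le_one (Finset.sum_nonneg fun j _ => (hy.1 j f).1)
  have hs : 0 ≤ Real.sqrt (eta nb C T i) := Real.sqrt_nonneg _
  rcases eq_or_lt_of_le hs with h0 | h0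
  · rw [← h0, zero_mul]; exact hmin
  · have := mul_le_mul_of_nonneg_left h.2 hs
    rw [← mul_assoc, mul_inv_cancel₀ h0.ne', one_mul] at this
    exact this

lemma inner_gr (nb : I → Finset J) (N C T : ℕ) (x : I → Fin N)
    (v : EuclideanSpace ℝ (I × Fin N)) :
    inner ℝ (gr nb N C T x) v = ∑ i, Real.sqrt (eta nb C T i) * v (i, x i) := by
  unfold gr
  rw [PiLp.inner_apply, Fintype.sum_prod_type]
  apply Finset.sum_congr rfl
  intro i _
  rw [Finset.sum_eq_single (x i)]
  · simp [mul_comm]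
  · intro f _ hf
    simp [hf]
  · intro h; exact absurd (Finset.mem_univ _) h

lemma norm_gr (nb : I → Finset J) (N C T : ℕ) (x : I → Fin N) :
    ‖gr nb N C T x‖ ^ 2 = ∑ i, eta nb C T i := by
  rw [← real_inner_self_eq_norm_sq, inner_gr]
  apply Finset.sum_congr rfl
  intro i _
  have h0 : 0 ≤ eta nb C T i := Real.sqrt_nonneg _
  have : (gr nb N C T x) (i, x i) = Real.sqrt (eta nb C T i) := by simp [gr]
  rw [this, Real.mul_self_sqrt h0]

/-- the comparator -/
noncomputable def cmp (nb : I → Finset J) (N C T : ℕ) (y : J → Fin N → ℝ) :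
    EuclideanSpace ℝ (I × Fin N) :=
  WithLp.toLp 2 (fun p => (Real.sqrt (eta nb C T p.1))⁻¹ * min 1 (∑ j ∈ nb p.1, y j p.2))

lemma cmp_mem (nb : I → Finset J) (N C T : ℕ) {y : J → Fin N → ℝ} (hy : y ∈ Conf J N C) :
    cmp nb N C T y ∈ KK nb N C T := by
  refine ⟨y, hy, fun i f => ⟨?_, le_rfl⟩⟩
  have : 0 ≤ min 1 (∑ j ∈ nb i, y j f) :=
    le_min zero_le_one (Finset.sum_nonneg fun j _ => (hy.1 j f).1)
  simp only [cmp]
  positivity

lemma cmp_mul (nb : I → Finset J) (N : ℕ) {C T : ℕ} (hC : 1 ≤ C) (hT : 1 ≤ T)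
    (y : J → Fin N → ℝ) (i : I) (f : Fin N) :
    Real.sqrt (eta nb C T i) * cmp nb N C T y (i, f) = min 1 (∑ j ∈ nb i, y j f) := by
  have hC' : (0 : ℝ) < C := by exact_mod_cast hC
  have hT' : (0 : ℝ) < T := by exact_mod_cast hT
  simp only [cmp]
  by_cases h0 : nb i = ∅
  · simp [h0]
  · have hn : (0 : ℝ) < ((nb i).card : ℝ) := by
      exact_mod_cast Finset.card_pos.2 (Finset.nonempty_iff_ne_empty.2 h0)
    have h1 : 0 < eta nb C T i := Real.sqrt_pos.2 (by positivity)
    have h2 : 0 < Real.sqrt (eta nb C T i) := Real.sqrt_pos.2 h1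
    rw [← mul_assoc, mul_inv_cancel₀ h2.ne', one_mul]

lemma cmp_norm (nb : I → Finset J) (N : ℕ) {C T : ℕ} (hT : 1 ≤ T)
    {y : J → Fin N → ℝ} (hy : y ∈ Conf J N C) :
    ‖cmp nb N C T y‖ ^ 2 ≤ T * ∑ i, eta nb C T i := by
  have hT' : (0 : ℝ) < T := by exact_mod_cast hT
  rw [EuclideanSpace.real_norm_sq_eq, Fintype.sum_prod_type, Finset.mul_sum]
  apply Finset.sum_le_sum
  intro i _
  simp only [cmp]
  have h0 : 0 ≤ eta nb C T i := Real.sqrt_nonneg _
  have hsq : eta nb C T i ^ 2 = C * (nb i).card / T := Real.sq_sqrt (by positivity)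
  calc ∑ f, ((Real.sqrt (eta nb C T i))⁻¹ * min 1 (∑ j ∈ nb i, y j f)) ^ 2
      = (eta nb C T i)⁻¹ * ∑ f, (min 1 (∑ j ∈ nb i, y j f)) ^ 2 := by
        rw [Finset.mul_sum]
        apply Finset.sum_congr rfl
        intro f _
        rw [mul_pow, inv_pow, Real.sq_sqrt h0]
    _ ≤ (eta nb C T i)⁻¹ * (C * (nb i).card) := by
        apply mul_le_mul_of_nonneg_left _ (by positivity)
        calc ∑ f, (min 1 (∑ j ∈ nb i, y j f)) ^ 2 ≤ ∑ f, ∑ j ∈ nb i, y j f := by
              apply Finset.sum_le_sum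
              intro f _
              have g1 : 0 ≤ min 1 (∑ j ∈ nb i, y j f) :=
                le_min zero_le_one (Finset.sum_nonneg fun j _ => (hy.1 j f).1)
              have g2 := min_le_left 1 (∑ j ∈ nb i, y j f)
              have g3 := min_le_right 1 (∑ j ∈ nb i, y j f)
              nlinarith
          _ = ∑ j ∈ nb i, ∑ f, y j f := Finset.sum_comm
          _ ≤ ∑ _j ∈ nb i, (C : ℝ) := Finset.sum_le_sum fun j _ => hy.2 j
          _ = C * (nb i).card := by rw [Finset.sum_const, nsmul_eq_mul, mul_comm]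
    _ ≤ T * eta nb C T i := by
        rcases eq_or_lt_of_le h0 with h | h
        · rw [← h]; simp
        · have e : (C : ℝ) * (nb i).card = T * eta nb C T i ^ 2 := by
            rw [hsq]; field_simp
          rw [e, inv_mul_le_iff₀ h]
          apply le_of_eq; ring

lemma eta_sum (nb : I → Finset J) (C : ℕ) {T : ℕ} (hT : 1 ≤ T) :
    T * ∑ i, eta nb C T i = Real.sqrt (C * T) * ∑ i, Real.sqrt (nb i).card := by
  have hT' : (0 : ℝ) < T := by exact_mod_cast hT
  rw [Finset.mul_sum, Finset.mul_sum]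
  apply Finset.sum_congr rfl
  intro i _
  unfold eta
  rw [← Real.sqrt_mul (by positivity)]
  have : (C : ℝ) * T * (nb i).card = T ^ 2 * (C * (nb i).card / T) := by field_simp
  rw [this, Real.sqrt_mul (by positivity), Real.sqrt_sq hT'.le]

theorem upper_bound (nb : I → Finset J) (N : ℕ) {C T : ℕ} (hC : 1 ≤ C) (hT : 1 ≤ T) :
    regret nb N C T (pol nb N C T) ≤ Real.sqrt (C * T) * ∑ i, Real.sqrt (nb i).card := by
  have hB : 0 ≤ Real.sqrt (C * T) * ∑ i, Real.sqrt (nb i).card := by positivity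
  unfold regret
  apply Real.iSup_le _ hB
  intro x
  have hpn : 0 ≤ ∑ t, q nb (x t) (pol nb N C T t (past x t)) :=
    Finset.sum_nonneg fun t _ => q_nonneg nb (x t) (pol nb N C T t (past x t)).2
  rw [sub_le_iff_le_add]
  apply Real.iSup_le _ (by positivity)
  rintro ⟨y, hy⟩
  simp only
  set w := cmp nb N C T y with hw
  have hwm : w ∈ KK nb N C T := cmp_mem nb N C T hy
  -- the potential
  let u : (k : ℕ) → (h : k ≤ T) → EuclideanSpace ℝ (I × Fin N) := fun k h =>
    (VV nb N C T k (fun s => x ⟨s, lt_of_lt_of_le s.2 h⟩) : EuclideanSpace ℝ (I × Fin N))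
  let a : ℕ → ℝ := fun k => if h : k ≤ T then ‖u k h - w‖ ^ 2 else 0
  have hstep : ∀ t : Fin T, q nb (x t) y - q nb (x t) (pol nb N C T t (past x t)) ≤
      (a t - a (t + 1) + ∑ i, eta nb C T i) / 2 := by
    intro t
    have ht1 : (t : ℕ) ≤ T := t.2.le
    have ht2 : (t : ℕ) + 1 ≤ T := t.2
    have e1 : a t = ‖u t ht1 - w‖ ^ 2 := by simp only [a]; rw [dif_pos ht1]
    have e2 : a (t + 1) = ‖u (t + 1) ht2 - w‖ ^ 2 := by simp only [a]; rw [dif_pos ht2]
    have e3 : u (t + 1) ht2 = (proj nb N C T (u t ht1 + gr nb N C T (x t)) :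
        EuclideanSpace ℝ (I × Fin N)) := rfl
    have h1 : ‖u (t + 1) ht2 - w‖ ^ 2 ≤ ‖(u t ht1 + gr nb N C T (x t)) - w‖ ^ 2 := by
      rw [e3]; exact proj_le nb N C T _ _ hwm
    have h2 : ‖(u t ht1 + gr nb N C T (x t)) - w‖ ^ 2 = ‖u t ht1 - w‖ ^ 2 +
        2 * inner ℝ (gr nb N C T (x t)) (u t ht1 - w) + ‖gr nb N C T (x t)‖ ^ 2 := by
      have : (u t ht1 + gr nb N C T (x t)) - w = (u t ht1 - w) + gr nb N C T (x t) := by abel
      rw [this, norm_add_sq_real, real_inner_comm]
    rw [h2, norm_gr, inner_gr] at h1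
    have h3 : q nb (x t) y - q nb (x t) (pol nb N C T t (past x t)) ≤
        - ∑ i, Real.sqrt (eta nb C T i) * (u t ht1 - w) (i, x t i) := by
      unfold q
      rw [← Finset.sum_sub_distrib, ← Finset.sum_neg_distrib]
      apply Finset.sum_le_sum
      intro i _
      have g1 := pol_spec nb N C T t (past x t) i (x t i)
      have g2 := cmp_mul nb N hC hT y i (x t i)
      have g3 : (u t ht1 - w) (i, x t i) = u t ht1 (i, x t i) - w (i, x t i) := by simp
      have g4 : u t ht1 (i, x t i) = (VV nb N C T t (past x t) :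
        EuclideanSpace ℝ (I × Fin N)) (i, x t i) := rfl
      rw [g3, mul_sub, ← g2, g4]
      linarith
    rw [e1, e2]
    linarith
  have htel : ∑ t : Fin T, (a t - a (t + 1)) = a 0 - a T := by
    rw [Fin.sum_univ_eq_sum_range (fun k => a k - a (k + 1)) T, Finset.sum_range_sub']
  have ha0 : a 0 ≤ T * ∑ i, eta nb C T i := by
    simp only [a, Nat.zero_le, dif_pos]
    have : u 0 (Nat.zero_le T) = 0 := rfl
    rw [this, zero_sub, norm_neg]
    exact cmp_norm nb N hT hy
  have haT : 0 ≤ a T := by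
    simp only [a, le_refl, dif_pos]
    positivity
  have hsum := Finset.sum_le_sum (s := Finset.univ) fun t (_ : t ∈ Finset.univ) => hstep t
  rw [Finset.sum_sub_distrib, ← Finset.sum_div, Finset.sum_add_distrib, htel, Finset.sum_const,
    Finset.card_univ, Fintype.card_fin, nsmul_eq_mul] at hsum
  rw [← eta_sum nb C hT]
  linarith

lemma minimax_le (nb : I → Finset J) {N C T : ℕ} (π : Policy I J N C) :
    minimax nb N C T ≤ regret nb N C T π := by
  unfold minimax
  apply ciInf_le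
  refine ⟨-(T * Fintype.card I), ?_⟩
  rintro _ ⟨π, rfl⟩
  change -(T * Fintype.card I : ℝ) ≤ ⨆ x : Fin T → I → Fin N,
    ((⨆ y : Conf J N C, ∑ t, q nb (x t) y) - ∑ t, q nb (x t) (π t (past x t)))
  rcases isEmpty_or_nonempty (Fin T → I → Fin N) with h | h
  · rw [Real.iSup_of_isEmpty]
    have : (0 : ℝ) ≤ T * Fintype.card I := by positivity
    linarith
  · obtain ⟨x⟩ := h
    refine le_trans ?_ (le_ciSup (Set.finite_range _).bddAbove x)
    have h1 : 0 ≤ ⨆ y : Conf J N C, ∑ t, q nb (x t) y :=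
      Real.iSup_nonneg fun y => Finset.sum_nonneg fun t _ => q_nonneg nb (x t) y.2
    have h2 : ∑ t, q nb (x t) (π t (past x t)) ≤ T * Fintype.card I := by
      calc _ ≤ ∑ _t : Fin T, (Fintype.card I : ℝ) :=
            Finset.sum_le_sum fun t _ => q_le nb _ _
        _ = _ := by simp
    linarith

lemma minimax_ge (nb : I → Finset J) {N C T : ℕ} {b : ℝ}
    (h : ∀ π : Policy I J N C, b ≤ regret nb N C T π) : b ≤ minimax nb N C T := by
  unfold minimax
  have : Nonempty (Policy I J N C) :=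
    ⟨fun _ _ => ⟨0, ⟨fun j f => by simp, fun j => by simp⟩⟩⟩
  exact le_ciInf h

end upper

/-- **Q1: the order of the minimax regret.** Let the bipartite graph be right `d`-regular (`nb i` is
the set of the caches adjacent to user `i`), `C ≥ 1`, `d ≥ 1`.

(1) `R*_T ≤ √(C T) * ∑ i, √(D i)` for all `N` and `T ≥ 1`, where `D i` is the degree of user `i`.

(2) `R*_T ≥ (1 / (8 d ^ 2)) * √(C T) * ∑ i, √(D i)` for `N ≥ 2 C |J|` and `T ≥ C |J|`.

(3) `d √|J| ≤ ∑ i, √(D i) ≤ d |J|`.

Moreover both extremes in (3) occur for all `d` and `|J|`: for the complete bipartite graph with `d`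
users the sum is `d √|J|`, and if every cache has `d` private users the sum is `d |J|`. -/
theorem result :
    (∀ (I J : Type) [Fintype I] [Fintype J] [DecidableEq J] [Nonempty J] (nb : I → Finset J)
      (d C : ℕ), 1 ≤ d → 1 ≤ C → (∀ j, (Finset.univ.filter (fun i => j ∈ nb i)).card = d) →
      (∀ N T : ℕ, 1 ≤ T →
        minimax nb N C T ≤ Real.sqrt (C * T) * ∑ i, Real.sqrt (nb i).card) ∧
      (∀ N T : ℕ, 2 * C * Fintype.card J ≤ N → C * Fintype.card J ≤ T →
        1 / (8 * (d : ℝ) ^ 2) * (Real.sqrt (C * T) * ∑ i, Real.sqrt (nb i).card) ≤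
          minimax nb N C T) ∧
      (d * Real.sqrt (Fintype.card J) ≤ ∑ i, Real.sqrt (nb i).card ∧
        ∑ i, Real.sqrt (nb i).card ≤ d * Fintype.card J)) ∧
    (∀ d m : ℕ,
      (∀ j, (Finset.univ.filter
        (fun i => j ∈ (fun _ : Fin d => (Finset.univ : Finset (Fin m))) i)).card = d) ∧
      ∑ i, Real.sqrt ((fun _ : Fin d => (Finset.univ : Finset (Fin m))) i).card =
        d * Real.sqrt m) ∧
    (∀ d m : ℕ,
      (∀ j, (Finset.univ.filter
        (fun i => j ∈ (fun p : Fin m × Fin d => ({p.1} : Finset (Fin m))) i)).card = d) ∧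
      ∑ i, Real.sqrt ((fun p : Fin m × Fin d => ({p.1} : Finset (Fin m))) i).card = d * m) := by
  classical
  refine ⟨?_, ?_, ?_⟩
  · intro I J _ _ _ _ nb d C hd hC hreg
    refine ⟨fun N T hT => (minimax_le nb _).trans (upper_bound nb N hC hT), fun N T hN hT =>
      minimax_ge nb fun π => lower_bound nb hd hC hreg hN hT π, ?_⟩
    have htot : ∑ i, ((nb i).card : ℝ) = d * Fintype.card J := by
      have : ∑ i, (nb i).card = d * Fintype.card J := by
        calc ∑ i, (nb i).card = ∑ i, ∑ j, if j ∈ nb i then 1 else 0 := by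
              apply Finset.sum_congr rfl
              intro i _
              simp
          _ = ∑ j, ∑ i, if j ∈ nb i then 1 else 0 := Finset.sum_comm
          _ = ∑ j : J, d := by
              apply Finset.sum_congr rfl
              intro j _
              rw [← Finset.card_filter]
              exact hreg j
          _ = d * Fintype.card J := by simp [mul_comm]
      exact_mod_cast this
    have hJ : (0 : ℝ) < Fintype.card J := by exact_mod_cast Fintype.card_pos (α := J)
    constructor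
    · have h1 : ∀ i, ((nb i).card : ℝ) ≤ Real.sqrt (Fintype.card J) * Real.sqrt (nb i).card := by
        intro i
        have h2 : ((nb i).card : ℝ) ≤ Fintype.card J := by exact_mod_cast Finset.card_le_univ _
        calc ((nb i).card : ℝ) = Real.sqrt (nb i).card * Real.sqrt (nb i).card :=
              (Real.mul_self_sqrt (Nat.cast_nonneg _)).symm
          _ ≤ _ := mul_le_mul_of_nonneg_right (Real.sqrt_le_sqrt h2) (Real.sqrt_nonneg _)
      have h3 : (d : ℝ) * Fintype.card J ≤
          Real.sqrt (Fintype.card J) * ∑ i, Real.sqrt (nb i).card := by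
        rw [← htot, Finset.mul_sum]
        exact Finset.sum_le_sum fun i _ => h1 i
      have hs : 0 < Real.sqrt (Fintype.card J) := Real.sqrt_pos.2 hJ
      apply le_of_mul_le_mul_left _ hs
      calc Real.sqrt (Fintype.card J) * (d * Real.sqrt (Fintype.card J))
          = d * (Real.sqrt (Fintype.card J) * Real.sqrt (Fintype.card J)) := by ring
        _ = d * Fintype.card J := by rw [Real.mul_self_sqrt hJ.le]
        _ ≤ _ := h3
    · rw [← htot]
      apply Finset.sum_le_sum
      intro i _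
      rcases Nat.eq_zero_or_pos (nb i).card with h0 | h0
      · rw [h0]; simp
      · have h1 : (1 : ℝ) ≤ (nb i).card := by exact_mod_cast h0
        calc Real.sqrt (nb i).card ≤ Real.sqrt (((nb i).card : ℝ) ^ 2) := by
              apply Real.sqrt_le_sqrt; nlinarith
          _ = (nb i).card := Real.sqrt_sq (Nat.cast_nonneg _)
  · intro d m
    constructor
    · intro j; simp
    · simp
  · intro d m
    constructor
    · intro j
      have : (Finset.univ.filter
          (fun i => j ∈ (fun p : Fin m × Fin d => ({p.1} : Finset (Fin m))) i)) =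
          (Finset.univ : Finset (Fin d)).map ⟨fun k => (j, k), fun a b h => by simpa using h⟩ := by
        ext ⟨a, b⟩
        rw [Finset.mem_filter, Finset.mem_map]
        constructor
        · rintro ⟨-, h⟩
          exact ⟨b, Finset.mem_univ _, by rw [Finset.mem_singleton] at h; simp [h]⟩
        · rintro ⟨k, -, h⟩
          have h' : (j, k) = (a, b) := h
          rw [Prod.mk.injEq] at h'
          exact ⟨Finset.mem_univ _, Finset.mem_singleton.2 h'.1⟩
      rw [this, Finset.card_map]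
      simp
    · simp [mul_comm]

end Pool.Agent.Results.MP_887eca_lc.RegretOrder
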